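import Mathlib
import Pool.Agent.TH497.PW.IntFlow
import Pool.Agent.TH497.PW.D6.All

set_option autoImplicit false

/-!
# Nowhere-zero 5-flows in graphs of pathwidth at most six (MP_974d84_co)

Every bridgeless multigraph of pathwidth at most `6` has a nowhere-zero 5-flow.  There is no
condition on the degrees, on the connectivity or on the number of vertices.

Proof.  Contracting an edge of a cut with two edges, deleting a parallel edge and splitting at empty
cuts keep the pathwidth, so one may assume that the graph is simple and that all edge cuts have at
least three edges.  The vertices are explored in the order of a path decomposition.  The explored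
part `P` has at most six vertices with unexplored neighbours; its state is the set of vectors of
`Z_5` on these vertices which are divergences of nowhere-zero functions on the edges inside `P`,
together with the partitions of these vertices which are separated by at most two edges inside `P`
(partitions which lead to a cut of the whole graph with fewer than three edges never occur).
There is a list of 515 states, closed under the exploration of one more vertex up to relabelling
and passing to a weaker state, in which no set of vectors is empty; this closure is evaluated by the
kernel.
-/

namespace Pool.Agent.Results.MP_974d84_co.PathwidthSix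

open Pool.Agent.TH497.PW

variable {V E : Type}

/-- The edges with exactly one end in `Y`. -/
def boundary [DecidableEq V] [Fintype E] (src dst : E → V) (Y : Finset V) : Finset E :=
  Finset.univ.filter (fun e => ¬ (src e ∈ Y ↔ dst e ∈ Y))

/-- Kirchhoff's law. -/
def IsFlow [DecidableEq V] [Fintype E] (src dst : E → V) (f : E → ℤ) : Prop :=
  ∀ v : V, ∑ e ∈ Finset.univ.filter (fun e => src e = v), f e
    = ∑ e ∈ Finset.univ.filter (fun e => dst e = v), f e

/-- `X 0, X 1, ...` is a path decomposition of width at most `w`: every edge has both ends in one
of the sets, every vertex lies in an interval of the sets, and the sets have at most `w + 1`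
elements. -/
structure IsPathDecomposition [DecidableEq V] (src dst : E → V) (w : ℕ) (X : ℕ → Finset V) :
    Prop where
  edge : ∀ e, ∃ i, src e ∈ X i ∧ dst e ∈ X i
  interval : ∀ i j k, i ≤ j → j ≤ k → X i ∩ X k ⊆ X j
  width : ∀ i, (X i).card ≤ w + 1

theorem isFlow_iff [DecidableEq V] [Fintype E] (src dst : E → V) (f : E → ℤ) :
    IsFlow src dst f ↔
      ∀ v, ∑ e, f e * ((if src e = v then 1 else 0) - (if dst e = v then 1 else 0)) = 0 := by
  unfold IsFlow
  refine forall_congr' fun v => ?_
  rw [Finset.sum_filter, Finset.sum_filter, ← sub_eq_zero, ← Finset.sum_sub_distrib]
  have : ∀ e, (if src e = v then f e else 0) - (if dst e = v then f e else 0)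
      = f e * ((if src e = v then 1 else 0) - (if dst e = v then 1 else 0)) := by
    intro e
    by_cases h1 : src e = v <;> by_cases h2 : dst e = v <;> simp [h1, h2]
  rw [Finset.sum_congr rfl (fun e _ => this e)]

theorem result :
    ∀ (V E : Type) [Fintype V] [DecidableEq V] [Fintype E] [DecidableEq E] (src dst : E → V)
      (X : ℕ → Finset V), IsPathDecomposition src dst 6 X →
      (∀ Y : Finset V, (boundary src dst Y).card ≠ 1) →
      ∃ f : E → ℤ, IsFlow src dst f ∧ ∀ e, 1 ≤ |f e| ∧ |f e| ≤ 4 := by
  intro V E _ _ _ _ src dst X hX hb
  obtain ⟨F, hF, hF0⟩ := int_flow src dst
    (D6.flow src dst hb ⟨X, hX.edge, hX.interval, hX.width⟩)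
  exact ⟨F, (isFlow_iff src dst F).mpr hF0, hF⟩

end Pool.Agent.Results.MP_974d84_co.PathwidthSix
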