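import Mathlib
import Pool.Agent.TH497.PW.IntFlow
import Pool.Agent.TH497.TW.Std
import Pool.Agent.TH497.TW.K5.All

set_option autoImplicit false

/-!
# Nowhere-zero 5-flows in graphs of treewidth at most four (MP_c8786f_co)

Every bridgeless multigraph of treewidth at most `4` has a nowhere-zero 5-flow.  There is no
condition on the degrees, on the connectivity or on the number of vertices.  (Graphs of treewidth
at most `3` have no Petersen minor; the Petersen graph has treewidth `4` and no nowhere-zero
4-flow.)

Proof.  Contracting an edge of a cut with two edges, deleting a parallel edge and splitting at empty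
cuts keep the treewidth, so one may assume that all edge cuts have at least three edges.  The graph
is assembled along a tree decomposition in which no bag is contained in the bag of its parent.  The
state of a part with a boundary of at most five vertices is the set of vectors of `Z_5` on the
boundary which are divergences of nowhere-zero functions on the edges of the part, together with the
partitions of the boundary which are separated by at most two edges of the part (partitions which
lead to a cut of the whole graph with fewer than three edges never occur).  There is a list of 94
states, closed under adding an isolated vertex, completing a boundary vertex, and under joining with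
a part whose boundary has at most four vertices (31997 joins), up to relabelling and passing to a
weaker state, in which the set of vectors is never empty; this closure is evaluated by the kernel.
-/

namespace Pool.Agent.Results.MP_c8786f_co.TreewidthFour

open Pool.Agent.TH497.PW Pool.Agent.TH497.TW

variable {V E ι : Type}

/-- The edges with exactly one end in `Y`. -/
def boundary [DecidableEq V] [Fintype E] (src dst : E → V) (Y : Finset V) : Finset E :=
  Finset.univ.filter (fun e => ¬ (src e ∈ Y ↔ dst e ∈ Y))

/-- Kirchhoff's law. -/
def IsFlow [DecidableEq V] [Fintype E] (src dst : E → V) (f : E → ℤ) : Prop :=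
  ∀ v : V, ∑ e ∈ Finset.univ.filter (fun e => src e = v), f e
    = ∑ e ∈ Finset.univ.filter (fun e => dst e = v), f e

/-- The sets `X i`, for the nodes `i` of the graph `T`, are a tree decomposition of width at most
`w`: `T` is a tree, every edge has both ends in one of the sets, a vertex in `X i` and `X j` is in
`X k` for all `k` on the path of `T` from `i` to `j`, and the sets have at most `w + 1` elements. -/
structure IsTreeDecomposition [DecidableEq V] (src dst : E → V) (w : ℕ) (T : SimpleGraph ι)
    (X : ι → Finset V) : Prop where
  tree : T.IsTree
  edge : ∀ e, ∃ i, src e ∈ X i ∧ dst e ∈ X i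
  path : ∀ (i j : ι) (p : T.Walk i j), p.IsPath → ∀ k ∈ p.support, X i ∩ X j ⊆ X k
  width : ∀ i, (X i).card ≤ w + 1

theorem isFlow_iff [DecidableEq V] [Fintype E] (src dst : E → V) (f : E → ℤ) :
    IsFlow src dst f ↔
      ∀ v, ∑ e, f e * ((if src e = v then 1 else 0) - (if dst e = v then 1 else 0)) = 0 := by
  unfold IsFlow
  refine forall_congr' fun v => ?_
  rw [Finset.sum_filter, Finset.sum_filter, ← sub_eq_zero, ← Finset.sum_sub_distrib]
  have : ∀ e, (if src e = v then f e else 0) - (if dst e = v then f e else 0)
      = f e * ((if src e = v then 1 else 0) - (if dst e = v then 1 else 0)) := by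
    intro e
    by_cases h1 : src e = v <;> by_cases h2 : dst e = v <;> simp [h1, h2]
  rw [Finset.sum_congr rfl (fun e _ => this e)]

theorem result :
    ∀ (V E ι : Type) [Fintype V] [DecidableEq V] [Fintype E] [DecidableEq E] [Fintype ι]
      (src dst : E → V) (T : SimpleGraph ι) (X : ι → Finset V),
      IsTreeDecomposition src dst 4 T X →
      (∀ Y : Finset V, (boundary src dst Y).card ≠ 1) →
      ∃ f : E → ℤ, IsFlow src dst f ∧ ∀ e, 1 ≤ |f e| ∧ |f e| ≤ 4 := by
  intro V E ι _ _ _ _ _ src dst T X hX hb
  have hTD : HasTD 5 src dst := HasTD.of_tree hX.tree
    (fun i j p hp k hk v hi hj => hX.path i j p hp k hk (Finset.mem_inter.mpr ⟨hi, hj⟩))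
    hX.edge hX.width
  obtain ⟨F, hF, hF0⟩ := int_flow src dst (K5.flow src dst hb hTD)
  exact ⟨F, (isFlow_iff src dst F).mpr hF0, hF⟩

end Pool.Agent.Results.MP_c8786f_co.TreewidthFour
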